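import Pool.Agent.H81.FX.Targets

/-!
PRE: prefixes of a reduced word.
-/

set_option autoImplicit false

namespace Pool.Agent.H49.FCX

open Pool.Agent.H81.FX Finset

theorem pf_PRE (_ : T_WRD) : T_PRE := by
  intro ι _ t ht
  have h2 : ∀ (n : ℕ) (s s' : Lt ι), t[n]? = some s → t[n + 1]? = some s' → s' ≠ iv s := by
    intro n s s' hs hs' he
    obtain ⟨hn, hs⟩ := List.getElem?_eq_some_iff.1 hs
    obtain ⟨hn', hs'⟩ := List.getElem?_eq_some_iff.1 hs'
    have hc := List.isChain_iff_getElem.1 ht n hn'
    rw [hs, hs', he] at hc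
    have h3 := hc rfl
    simp only [iv] at h3
    cases hb : s.2 <;> rw [hb] at h3 <;> simp at h3
  have h3 : ∀ n, (pre t n).toWord = t.take n := by
    intro n
    unfold pre
    rw [FreeGroup.toWord_mk]
    exact FreeGroup.IsReduced.reduce_eq (ht.take n)
  refine ⟨?_, h2, h3, ?_⟩
  · intro n s hs
    unfold pre el
    rw [List.take_add_one, hs, Option.toList_some, FreeGroup.mul_mk]
  · intro n s hs
    unfold Up
    rw [h3, List.getLast?_take]
    obtain ⟨hn, hs0⟩ := List.getElem?_eq_some_iff.1 hs
    rcases Nat.eq_zero_or_pos n with h0 | h0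
    · rw [if_pos h0]
      simp
    · rw [if_neg (by omega)]
      intro he
      have hl : n - 1 < t.length := by omega
      rw [List.getElem?_eq_getElem hl, Option.some_or] at he
      have h4 : t[n - 1]? = some (iv s) := by
        rw [List.getElem?_eq_getElem hl]
        exact he
      have h5 : t[n - 1 + 1]? = some s := by
        rw [Nat.sub_add_cancel h0]
        exact hs
      refine h2 (n - 1) _ _ h4 h5 ?_
      simp [iv]

end Pool.Agent.H49.FCX
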